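import Mathlib
import Pool.Agent.Run7.h971.Main

/-!
The case `p = 1` of the problem, for every `s`, on the totally degenerate curve: the union of
`s + 1` general rational normal curves of degree `r = 3 s + 1` through `r + 2` fixed points of
projective `r`-space, and for everything specialising to it.
-/

namespace Pool.Agent.Results.MP_7c8938_ag.PropertyNOne

open MvPolynomial Run7.h971

universe u v w

/-- `r = (s + 1) (p + 2) - 2` for `p = 1`. -/
def rr (s : ℕ) : ℕ := 3 * s + 1

/-- The degree `d = r (s + 1)`. -/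
def dd (s : ℕ) : ℕ := rr s * (s + 1)

/-- The genus `g = (r + 1) s`. -/
def genus (s : ℕ) : ℕ := (rr s + 1) * s

/-- The ideal `J` contains no linear form, its quotient has the Hilbert function `n d + 1 - g` in
all degrees `n ≥ 2`, it is generated by quadrics, and the quadrics have no linear syzygy. -/
structure PureNOne {N : ℕ} {K : Type u} [Field K] (s : ℕ) (J : Ideal (MvPolynomial (Fin N) K)) :
    Prop where
  low : ∀ n ≤ 1, piece J n = ⊥
  hilbert : ∀ n, 2 ≤ n →
    Module.finrank K (piece J n) + (n * dd s + 1) = (rr s + n).choose n + genus s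
  quadrics : J = Ideal.span (piece J 2 : Set (MvPolynomial (Fin N) K))
  linearSyzygies : ∀ Q : Fin N → MvPolynomial (Fin N) K, (∀ a, Q a ∈ piece J 2) →
    ∑ a, X a * Q a = 0 → ∀ a, Q a = 0

/-- Property `N_1` with pure resolution for the general union of rational normal curves, for every
`s ≥ 1`, and for every homogeneous ideal specialising into its ideal. -/
theorem result (s : ℕ) (hs : 1 ≤ s) :
    ∃ Φ : MvPolynomial (Fin (s + 1) × Fin (3 * s + 2)) ℤ, Φ ≠ 0 ∧
      ∀ (k : Type u) [Field k] [CharZero k] (α : Fin (s + 1) → Fin (3 * s + 2) → k),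
        aeval (fun t => α t.1 t.2) Φ ≠ 0 →
          (∀ j, Function.Injective (α j)) ∧
          PureNOne s (idealX α) ∧
          (∀ (n : ℕ) (f : Fin (s + 1) → MvPolynomial (Fin 2) k), Compat α (rr s) n f →
            ∃ F : MvPolynomial (Fin (3 * s + 2)) k, F.IsHomogeneous n ∧
              ∀ j x y, eval ![x, y] (f j) = eval (rncPoint (α j) x y) F) ∧
          ∀ (O : Type v) (K : Type w) [CommRing O] [IsDomain O] [IsDiscreteValuationRing O]
            [Field K] [Algebra O K] [IsFractionRing O K] (π : O →+* k),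
            Function.Surjective π → ∀ J : Ideal (MvPolynomial (Fin (3 * s + 2)) K),
              (∀ F ∈ J, ∀ n, homogeneousComponent n F ∈ J) →
              SpecialisesInto π J (idealX α) →
              (∀ n, 2 ≤ n → (rr s + n).choose n + genus s ≤
                Module.finrank K (piece J n) + (n * dd s + 1)) →
              PureNOne s J := by
  obtain ⟨Φ, hΦ, hgen⟩ := exists_generic s
  refine ⟨Φ, hΦ, ?_⟩
  intro k _ _ α hα0
  obtain ⟨hα, hcore⟩ := hgen k α hα0
  have hr : Fintype.card (Fin (3 * s + 2)) = rr s + 1 := by simp [rr]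
  have hr3 : 3 ≤ rr s := by unfold rr; omega
  have hnum : NumHyp (Fintype.card (Fin (3 * s + 2))) (Fintype.card (Fin (s + 1))) (rr s) := by
    rw [Fintype.card_fin, Fintype.card_fin]
    exact numHyp s
  let i0 : Fin (3 * s + 2) := ⟨0, by omega⟩
  let i1 : Fin (3 * s + 2) := ⟨1, by omega⟩
  have h01 : i0 ≠ i1 := by simp [i0, i1]
  have hlow : ∀ n ≤ 1, piece (idealX α) n = ⊥ := fun n hn => piece_le_one α hα hr i0 n hn
  have hhilb : ∀ n, 2 ≤ n → Module.finrank k (piece (idealX α) n) + (n * dd s + 1) =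
      (rr s + n).choose n + genus s := by
    intro n hn
    have h1 := finrank_piece α hα hcore hr hr3 i0 i1 h01 hnum n hn
    rw [← h1, Fintype.card_fin]
    obtain ⟨m, rfl⟩ : ∃ m, n = m + 1 := ⟨n - 1, by omega⟩
    obtain ⟨q, hq⟩ : ∃ q, m * rr s = q + 1 := by
      refine ⟨m * rr s - 1, ?_⟩
      have : 1 ≤ m * rr s := Nat.one_le_iff_ne_zero.mpr (by
        apply Nat.mul_ne_zero <;> omega)
      omega
    rw [Nat.add_sub_cancel, hq, Nat.add_sub_cancel]
    have e : (m + 1) * dd s = (q + 1) * (s + 1) + rr s * (s + 1) := by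
      rw [← hq]; unfold dd; ring
    rw [e]; unfold genus
    ring
  have hstep : ∀ n, 2 ≤ n → ∀ F ∈ piece (idealX α) (n + 1),
      ∃ Q : Fin (3 * s + 2) → MvPolynomial (Fin (3 * s + 2)) k,
        (∀ a, Q a ∈ piece (idealX α) n) ∧ F = ∑ a, X a * Q a := fun n hn F hF =>
    piece_step α hα hcore hr hr3 i0 i1 h01 hnum n hn F hF
  have hmul := mul_finrank_piece α hα hcore hr hr3 i0 i1 h01 hnum
  refine ⟨hα, ⟨hlow, hhilb, idealX_eq_span α hα hcore hr hr3 i0 i1 h01 hnum,
    fun Q hQ h0 => no_syz_of_finrank (hstep 2 le_rfl) hmul Q hQ h0⟩, ?_, ?_⟩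
  · intro n f hf
    obtain ⟨F, hF1, hF2⟩ := exists_form_of_compat α hα hcore hr hr3 i0 i1 h01 hnum n f hf
    refine ⟨F, hF1, fun j x y => ?_⟩
    rw [← hF2 j, eval_aeval_rncForm]
    rfl
  · intro O K _ _ _ _ _ _ π hπ J hJ hred hdim
    have hle : ∀ n, 2 ≤ n → Module.finrank k (piece (idealX α) n) ≤
        Module.finrank K (piece J n) := by
      intro n hn
      have h1 := hhilb n hn
      have h2 := hdim n hn
      omega
    have heq : ∀ n, 2 ≤ n → Module.finrank K (piece J n) =
        Module.finrank k (piece (idealX α) n) := fun n hn =>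
      le_antisymm (finrank_piece_le π hπ hred n) (hle n hn)
    have hlowJ : ∀ n ≤ 1, piece J n = ⊥ := by
      intro n hn
      have h1 := finrank_piece_le π hπ hred n
      rw [hlow n hn, finrank_bot] at h1
      exact Submodule.finrank_eq_zero.mp (Nat.le_zero.mp h1)
    have hstepJ : ∀ n, 2 ≤ n → ∀ F ∈ piece J (n + 1),
        ∃ Q : Fin (3 * s + 2) → MvPolynomial (Fin (3 * s + 2)) K,
          (∀ a, Q a ∈ piece J n) ∧ F = ∑ a, X a * Q a := fun n hn F hF =>
      special_gen π hπ hred n (hle n hn) (hstep n hn) F hF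
    refine ⟨hlowJ, fun n hn => ?_, eq_span_of_steps hJ hlowJ hstepJ, fun Q hQ h0 =>
      no_syz_of_finrank (hstepJ 2 le_rfl) ?_ Q hQ h0⟩
    · rw [heq n hn]; exact hhilb n hn
    · rw [heq 2 le_rfl, heq 3 (by norm_num)]; exact hmul

end Pool.Agent.Results.MP_7c8938_ag.PropertyNOne
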